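import Pool.Agent.MP_f20ab1_al.Assembly

open scoped Pointwise

namespace Pool.Agent.Results.MP_f20ab1_al.AsymmetricGrowth

/-- The asymmetric growth statement for alternating groups: for every `δ > 0` there is `ε > 0` such
that for all `n ≥ 5` and all subsets `A, B` of `Alt(n)` with `|B| ≤ |Alt(n)| ^ (1 - δ)` some
`g ∈ Alt(n)` has `|B A^g| ≥ |B| |A| ^ ε`, where `A^g = {g⁻¹ a g | a ∈ A}`. -/
theorem result : ∀ δ : ℝ, 0 < δ → ∃ ε : ℝ, 0 < ε ∧
    ∀ n : ℕ, 5 ≤ n → ∀ A B : Finset (alternatingGroup (Fin n)),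
      (B.card : ℝ) ≤ (Nat.card (alternatingGroup (Fin n)) : ℝ) ^ (1 - δ) →
      ∃ g : alternatingGroup (Fin n),
        (B.card : ℝ) * (A.card : ℝ) ^ ε ≤ ((B * A.image (fun a => g⁻¹ * a * g)).card : ℝ) := by
  intro δ hδ
  obtain ⟨ε, hε, H⟩ := Pool.Agent.MP_f20ab1_al.growth (min δ (1 / 2)) (by positivity)
    (min_le_right _ _)
  refine ⟨ε, hε, fun n hn A B hB => H n hn A B (hB.trans ?_)⟩
  rw [Nat.card_eq_fintype_card]
  refine Real.rpow_le_rpow_of_exponent_le ?_ (by linarith [min_le_left δ (1 / 2)])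
  exact_mod_cast Fintype.card_pos

end Pool.Agent.Results.MP_f20ab1_al.AsymmetricGrowth
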